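import Pool.Agent.Lib.MP_9f2731_nt.PL.Rp.All
import Pool.Agent.Lib.MP_9f2731_nt.PL.Ap.All
import Pool.Agent.Lib.MP_9f2731_nt.QL.Sw.All
import Pool.Agent.Lib.MP_9f2731_nt.QL.Pw.All
import Pool.Agent.Lib.MP_9f2731_nt.GP.Dhj.All
import Pool.Agent.Lib.MP_9f2731_nt.PL.Lb.All

/-!
MP_9f2731_nt, THEOREM PL (helper9): geometric progressions in the shifted primes with polylogarithmic ratio, all chapters
together.
-/

namespace Pool.Agent.Lib.MP_9f2731_nt.PL

theorem plRel : RelPStmt := Rp.rpAll GP.Dhj.dhjAll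

theorem plMain : MainPStmt := Ap.apAll plRel QL.Sw.swCor QL.Sw.swMom QL.Pw.pwAll

theorem plFib : FibPStmt := Ap.pFip plMain

theorem plLb : Lb.LbpStmt := Lb.lbAll

end Pool.Agent.Lib.MP_9f2731_nt.PL
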