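import Pool.Agent.Lib.MP_9f2731_nt.QL.Defs

/-!
MP_9f2731_nt, directory PL (architect helper9, built on QL of helper78): geometric progressions in the shifted primes
with POLYLOGARITHMIC ratio. Definitions and the interfaces of the chapters:
Rp : DhjStmt → RelPStmt (relative Szemeredi theorem with one scale);
Ap : RelPStmt → CorVStmt → MomVStmt → ApVStmt → MainPStmt → FibPStmt.
-/

namespace Pool.Agent.Lib.MP_9f2731_nt.PL

open Finset
open Pool.Agent.Lib.MP_9f2731_nt.GP
open Pool.Agent.Lib.MP_9f2731_nt.GP.Rel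
open Pool.Agent.Lib.MP_9f2731_nt.QL (mu)

/-! ### Relative Szemeredi theorem with one scale -/

section rel

variable {G : Type} [AddCommGroup G]

/-- sum of the values of the first n entries of a tuple of elements of E -/
def incE {E : Type} (vl : E → G) {K : ℕ} (n : ℕ) (v : Fin K → E) : G :=
  ∑ t : Fin K, if (t : ℕ) < n then vl (v t) else 0

/-- the j-th form of the system m: `∑ (i - j) y_i`, where y_0 is a sum of k m + 1 values and the other y_i are values -/
def frE {E : Type} (vl : E → G) {K k : ℕ} (m : ℕ) (j : Fin k) (x : Fin k → Fin K → E) : G :=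
  ∑ i : Fin k, (((i : ℕ) : ℤ) - ((j : ℕ) : ℤ)) • incE vl (mu k m i) (x i)

/-- a wide element is a family of k M narrow elements -/
abbrev Wd (k M : ℕ) (Y : Finset G) : Type := Fin k × Fin M → Y

/-- the value of a wide element: the narrow element with the index (c,b) has the coefficient D / (c + 1) -/
def vw {k M : ℕ} {Y : Finset G} (D : ℕ) (ξ : Wd k M Y) : G :=
  ∑ p : Fin k × Fin M, (D / ((p.1 : ℕ) + 1)) • ((ξ p : Y) : G)

/-- the coefficients D (k times) and - D (k times) of the narrow form -/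
def cf (k D : ℕ) : Fin (k + k) → ℤ := fun a => if (a : ℕ) < k then (D : ℤ) else -(D : ℤ)

/-- narrow cube condition for the form with the coefficients c -/
def NLG [Fintype G] {r : ℕ} (c : Fin r → ℤ) (η : ℝ) (Y : Finset G) (ν : G → ℝ) : Prop :=
  ∀ A : Finset (Fin r → Bool),
    |av (fun z : G × (Fin r × Bool → Y) =>
      ∏ ω ∈ A, ν (z.1 + ∑ a, c a • ((z.2 (a, ω a) : Y) : G))) - 1| ≤ η

/-- wide linear forms condition, in the mean over the base point -/
def WLE [Fintype G] {E : Type} [Fintype E] (vl : E → G) (k n0 : ℕ) (η : ℝ) (ν : G → ℝ) : Prop :=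
  ∀ m : ℕ, m < n0 → ∀ S : Finset (Fin k × (Fin k → Bool)), (∀ p ∈ S, p.2 p.1 = false) →
    av (fun e : G => |av (fun x : Fin k × Bool → Fin (k * n0 + 1) → E =>
      ∏ p ∈ S, ν (e + frE vl m p.1 (pk p.2 x))) - 1|) ≤ η

end rel

/-- Relative Szemeredi theorem with one scale. The common difference is a sum of at most k n0 values of wide elements,
so it is in a bounded sumset of Y. -/
def RelPStmt : Prop :=
  ∀ (k : ℕ) (δ : ℝ), 2 ≤ k → 0 < δ → ∃ (c η : ℝ) (n0 M : ℕ), 0 < c ∧ 0 < η ∧ 1 ≤ M ∧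
    ∀ (G : Type) [AddCommGroup G] [Fintype G] [DecidableEq G] (Y : Finset G), Y.Nonempty →
      ∀ ν f : G → ℝ, (∀ x, 0 ≤ f x ∧ f x ≤ ν x) → NLG (cf k k.factorial) η Y ν →
      WLE (fun ξ : Wd k M Y => vw k.factorial ξ) k n0 η ν →
      δ * (Fintype.card G : ℝ) ≤ ∑ x, f x →
      ∃ m : ℕ, m < n0 ∧ c ≤ av (fun e : G => av (fun x : Fin k → Fin (k * n0 + 1) → Wd k M Y =>
        ∏ j : Fin k, f (e + frE (fun ξ : Wd k M Y => vw k.factorial ξ) m j x)))

/-! ### The theorem -/

/-- the ratios r ≤ (log X)^C for which n r^i + 1 is prime and n r^i has the property P for all i < k -/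
noncomputable def rts (P : ℕ → Prop) (k : ℕ) (C : ℝ) (X n : ℕ) : Set ℕ :=
  {r : ℕ | 2 ≤ r ∧ (r : ℝ) ≤ (Real.log X) ^ C ∧ ∀ i : ℕ, i < k → (n * r ^ i + 1).Prime ∧ P (n * r ^ i)}

open Classical in
/-- Main statement: the multipliers form a set Bm, V is the product of the small primes (except at most one). If P is a
property of numbers which holds for a proportion δ of the primes V b m + 1 for every multiplier m, then for a positive
proportion of the b there is a multiplier m such that at least (log X)^B numbers r ≤ (log X)^C have the property that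
V b m r^i + 1 is prime and V b m r^i has the property P for all i < k. -/
def MainPStmt : Prop :=
  ∀ (k : ℕ) (B δ ε : ℝ), 3 ≤ k → 0 < δ → 0 < ε → ∃ c C X0 : ℝ, 0 < c ∧ ∀ X : ℕ, X0 ≤ X →
    ∃ (V : ℕ) (Bm : Finset ℕ), 1 ≤ V ∧ Bm.Nonempty ∧
      (∀ m ∈ Bm, 1 ≤ m ∧ ((V * m : ℕ) : ℝ) ≤ Real.exp ((Real.log (Real.log X)) ^ (2 + ε)) ∧
        (1 / 4 : ℝ) * (X / Real.log X) ≤
          (((Icc 1 X).filter (fun b => (V * b * m + 1).Prime)).card : ℝ)) ∧
      ∀ P : ℕ → Prop,
      (∀ m ∈ Bm, δ * (((Icc 1 X).filter (fun b => (V * b * m + 1).Prime)).card : ℝ) ≤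
        (((Icc 1 X).filter (fun b => (V * b * m + 1).Prime ∧ P (V * b * m))).card : ℝ)) →
      c * X ≤ (((Icc 1 X).filter (fun b => ∃ m ∈ Bm,
        (Real.log X) ^ B ≤ ((rts P k C X (V * b * m)).ncard : ℝ))).card : ℝ)

open Classical in
/-- Almost all primes Q b + 1 start at least (log X)^B chains with ratio at most (log X)^C. -/
def FibPStmt : Prop :=
  ∀ (k : ℕ) (B δ ε : ℝ), 0 < δ → 0 < ε → ∃ C X0 : ℝ, ∀ X : ℕ, X0 ≤ X → ∃ Q : ℕ, 1 ≤ Q ∧
    (Q : ℝ) ≤ Real.exp ((Real.log (Real.log X)) ^ (2 + ε)) ∧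
    (1 / 4 : ℝ) * (X / Real.log X) ≤ (((Icc 1 X).filter (fun b => (Q * b + 1).Prime)).card : ℝ) ∧
    (((Icc 1 X).filter (fun b => (Q * b + 1).Prime ∧
      ((rts (fun _ => True) k C X (Q * b)).ncard : ℝ) < (Real.log X) ^ B)).card : ℝ) ≤
      δ * (((Icc 1 X).filter (fun b => (Q * b + 1).Prime)).card : ℝ)

end Pool.Agent.Lib.MP_9f2731_nt.PL
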