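import Pool.Agent.Lib.MP_9f2731_nt.PL.Lb.Spec
import Pool.Agent.Lib.MP_9f2731_nt.GP.HandIn

/-!
MP_9f2731_nt, THEOREM PL (helper9): the statement of the hand-in AlmostAllPolylogRatio.
-/

namespace Pool.Agent.Lib.MP_9f2731_nt.PL

open Finset

/-- from the exponent form to the sequence form -/
private theorem pl_seq {k A r : ℕ} (h : ∀ i : ℕ, i < k → (A * r ^ i + 1).Prime) :
    ∃ p : ℕ → ℕ, p 1 = A + 1 ∧ (∀ i, 1 ≤ i → i ≤ k → (p i).Prime) ∧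
      ∀ i, 1 ≤ i → (p (i + 1) : ℤ) = r * p i - (r - 1) := by
  refine ⟨fun i => A * r ^ (i - 1) + 1, by simp, fun i h1 h2 => h (i - 1) (by omega), fun i h1 => ?_⟩
  obtain ⟨j, rfl⟩ : ∃ j, i = j + 1 := ⟨i - 1, by omega⟩
  exact GP.gp_step A r j

/-- from the sequence form to the exponent form -/
private theorem pl_exp {k A r : ℕ} (h : ∃ p : ℕ → ℕ, p 1 = A + 1 ∧ (∀ i, 1 ≤ i → i ≤ k → (p i).Prime) ∧
      ∀ i, 1 ≤ i → (p (i + 1) : ℤ) = r * p i - (r - 1)) : ∀ i : ℕ, i < k → (A * r ^ i + 1).Prime := by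
  obtain ⟨p, hp1, hp, hstep⟩ := h
  have key : ∀ j : ℕ, p (j + 1) = A * r ^ j + 1 := by
    intro j
    induction j with
    | zero => simpa using hp1
    | succ j ih =>
      have h1 := hstep (j + 1) (by omega)
      rw [ih] at h1
      have h2 : (p (j + 1 + 1) : ℤ) = ((A * r ^ (j + 1) + 1 : ℕ) : ℤ) := by
        rw [h1]
        push_cast
        ring
      exact_mod_cast h2
  intro i hi
  rw [← key i]
  exact hp (i + 1) (by omega) (by omega)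

theorem pl_handin (h : FibPStmt) (hl : Lb.LbpStmt) (k : ℕ) (B δ ε : ℝ) (hδ : 0 < δ) (hε : 0 < ε) :
    ∃ C X₀ : ℝ, ∀ X : ℕ, X₀ ≤ X → ∃ Q : ℕ, 1 ≤ Q ∧
      (Q : ℝ) ≤ Real.exp (Real.log (Real.log X) ^ (2 + ε)) ∧
      X / (4 * Real.log X) ≤ (({b : ℕ | 1 ≤ b ∧ b ≤ X ∧ (Q * b + 1).Prime}.ncard : ℕ) : ℝ) ∧
      (({b : ℕ | 1 ≤ b ∧ b ≤ X ∧ (Q * b + 1).Prime ∧ ¬
        ((∀ r : ℕ, 2 ≤ r → (∃ p : ℕ → ℕ, p 1 = Q * b + 1 ∧ (∀ i, 1 ≤ i → i ≤ k → (p i).Prime) ∧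
            ∀ i, 1 ≤ i → (p (i + 1) : ℤ) = r * p i - (r - 1)) →
              Real.log X ^ (k - 1 - ε) < r) ∧
          Real.log X ^ B ≤ (({r : ℕ | 2 ≤ r ∧ (r : ℝ) ≤ Real.log X ^ C ∧
            ∃ p : ℕ → ℕ, p 1 = Q * b + 1 ∧ (∀ i, 1 ≤ i → i ≤ k → (p i).Prime) ∧
              ∀ i, 1 ≤ i → (p (i + 1) : ℤ) = r * p i - (r - 1)}.ncard : ℕ) : ℝ))}.ncard : ℕ) : ℝ) ≤
        δ * (({b : ℕ | 1 ≤ b ∧ b ≤ X ∧ (Q * b + 1).Prime}.ncard : ℕ) : ℝ) := by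
  classical
  obtain ⟨C, X1, hX⟩ := h k B (δ / 2) (min ε 1) (by positivity) (lt_min hε one_pos)
  obtain ⟨X2, hX2⟩ := hl k ε (δ / 8) hε (by positivity)
  refine ⟨C, max (max X1 X2) (Real.exp (Real.exp 1)), fun X hX0 => ?_⟩
  have hXX1 : X1 ≤ X := ((le_max_left _ _).trans (le_max_left _ _)).trans hX0
  have hXX2 : X2 ≤ X := ((le_max_right _ _).trans (le_max_left _ _)).trans hX0
  have hXe : Real.exp (Real.exp 1) ≤ X := (le_max_right _ _).trans hX0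
  have hXpos : (0 : ℝ) < X := (Real.exp_pos _).trans_le hXe
  have hl1 : Real.exp 1 ≤ Real.log X := by
    rw [Real.le_log_iff_exp_le hXpos]
    exact hXe
  have hlX : 0 < Real.log X := (Real.exp_pos _).trans_le hl1
  have hL : 1 ≤ Real.log (Real.log X) := by
    rw [Real.le_log_iff_exp_le hlX]
    exact hl1
  obtain ⟨Q, hQ, hQX, hcnt, hbad⟩ := hX X hXX1
  have hset : {b : ℕ | 1 ≤ b ∧ b ≤ X ∧ (Q * b + 1).Prime} =
      ((Icc 1 X).filter (fun b => (Q * b + 1).Prime) : Finset ℕ) := by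
    ext b
    simp only [Set.mem_ofPred_eq, coe_filter, mem_Icc, and_assoc]
  have hQpos : (0 : ℝ) < Q := by exact_mod_cast hQ
  have hlogQ : Real.log Q ≤ (Real.log (Real.log X)) ^ 10 := by
    have h1 : Real.log Q ≤ Real.log (Real.log X) ^ (2 + min ε 1) := by
      rw [Real.log_le_iff_le_exp hQpos]
      exact hQX
    refine h1.trans ?_
    rw [← Real.rpow_natCast]
    apply Real.rpow_le_rpow_of_exponent_le hL
    have := min_le_right ε 1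
    push_cast
    linarith
  have hlow := hX2 X Q hXX2 hQ hlogQ
  refine ⟨Q, hQ, ?_, ?_, ?_⟩
  · refine hQX.trans (Real.exp_le_exp.2 (Real.rpow_le_rpow_of_exponent_le hL ?_))
    have := min_le_left ε 1
    linarith
  · rw [hset, Set.ncard_coe_finset]
    refine le_trans (le_of_eq ?_) hcnt
    rw [mul_comm (4 : ℝ), ← div_div]
    ring
  · rw [hset, Set.ncard_coe_finset]
    set N : ℝ := (((Icc 1 X).filter (fun b => (Q * b + 1).Prime)).card : ℝ) with hN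
    set S1 := (Icc 1 X).filter (fun b => (Q * b + 1).Prime ∧
      ((rts (fun _ => True) k C X (Q * b)).ncard : ℝ) < (Real.log X) ^ B) with hS1
    set S2 := (Icc 1 X).filter (fun b => ∃ r : ℕ, 2 ≤ r ∧ (r : ℝ) ≤ (Real.log X) ^ ((k : ℝ) - 1 - ε) ∧
      ∀ i : ℕ, i < k → (Q * b * r ^ i + 1).Prime) with hS2
    have hsub : {b : ℕ | 1 ≤ b ∧ b ≤ X ∧ (Q * b + 1).Prime ∧ ¬
        ((∀ r : ℕ, 2 ≤ r → (∃ p : ℕ → ℕ, p 1 = Q * b + 1 ∧ (∀ i, 1 ≤ i → i ≤ k → (p i).Prime) ∧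
            ∀ i, 1 ≤ i → (p (i + 1) : ℤ) = r * p i - (r - 1)) →
              Real.log X ^ (k - 1 - ε) < r) ∧
          Real.log X ^ B ≤ (({r : ℕ | 2 ≤ r ∧ (r : ℝ) ≤ Real.log X ^ C ∧
            ∃ p : ℕ → ℕ, p 1 = Q * b + 1 ∧ (∀ i, 1 ≤ i → i ≤ k → (p i).Prime) ∧
              ∀ i, 1 ≤ i → (p (i + 1) : ℤ) = r * p i - (r - 1)}.ncard : ℕ) : ℝ))} ⊆
        ((S1 ∪ S2 : Finset ℕ) : Set ℕ) := by
      rintro b ⟨hb1, hb2, hb3, hb4⟩
      rw [mem_coe, mem_union]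
      rw [not_and_or] at hb4
      rcases hb4 with hb4 | hb4
      · right
        push Not at hb4
        obtain ⟨r, hr2, hr3, hr4⟩ := hb4
        rw [hS2, mem_filter, mem_Icc]
        exact ⟨⟨hb1, hb2⟩, r, hr2, hr4, pl_exp hr3⟩
      · left
        rw [not_le] at hb4
        rw [hS1, mem_filter, mem_Icc]
        refine ⟨⟨hb1, hb2⟩, hb3, lt_of_le_of_lt ?_ hb4⟩
        rw [Nat.cast_le]
        refine Set.ncard_le_ncard ?_ ((Set.finite_Icc 0 ⌊(Real.log X) ^ C⌋₊).subset fun r hr =>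
          ⟨Nat.zero_le r, Nat.le_floor hr.2.1⟩)
        rintro r ⟨hr1, hr2, hr3⟩
        exact ⟨hr1, hr2, pl_seq fun i hi => (hr3 i hi).1⟩
    have hcard := Set.ncard_le_ncard hsub (Finset.finite_toSet _)
    rw [Set.ncard_coe_finset] at hcard
    have hun : ((S1 ∪ S2).card : ℝ) ≤ (S1.card : ℝ) + S2.card := by
      exact_mod_cast card_union_le S1 S2
    have h2 : (S2.card : ℝ) ≤ δ / 2 * N := by
      refine hlow.trans ?_
      have h3 := mul_le_mul_of_nonneg_left hcnt (by positivity : (0 : ℝ) ≤ δ / 2)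
      refine le_trans (le_of_eq ?_) h3
      ring
    have h4 := (Nat.cast_le (α := ℝ)).2 hcard
    refine h4.trans (hun.trans ?_)
    have h5 : δ * N = δ / 2 * N + δ / 2 * N := by ring
    rw [h5]
    exact add_le_add hbad h2

end Pool.Agent.Lib.MP_9f2731_nt.PL
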